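import Pool.Agent.W172.WG.Defs

/-!
Project WG, part L2: the bilinear dictionary in `L_2([0,1]^2)`.
-/

set_option autoImplicit false

namespace Pool.Agent.W806.WG

open MeasureTheory Filter Topology RealInnerProductSpace Pool.Agent.W172.WG
open scoped ENNReal

instance instFin : IsFiniteMeasure mu := by
  unfold mu
  infer_instance

/-- the tensor product as a function -/
noncomputable def tf (a b : E) : ℝ × ℝ → ℝ := fun p => a p.1 * b p.2

theorem sqi (a : E) : Integrable (fun x => a x ^ 2) mu := (Lp.memLp a).integrable_sq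

theorem memLp_tf (a b : E) : MemLp (tf a b) 2 (mu.prod mu) := by
  have hm : AEStronglyMeasurable (tf a b) (mu.prod mu) :=
    (Lp.aestronglyMeasurable a).comp_fst.mul (Lp.aestronglyMeasurable b).comp_snd
  rw [memLp_two_iff_integrable_sq hm]
  have h := (sqi a).mul_prod (sqi b)
  refine h.congr (Eventually.of_forall fun p => ?_)
  simp only [tf]
  ring

/-- the tensor product -/
noncomputable def T (a b : E) : H := (memLp_tf a b).toLp _

theorem coe_T (a b : E) : (T a b : ℝ × ℝ → ℝ) =ᵐ[mu.prod mu] tf a b := MemLp.coeFn_toLp _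

theorem inner_T (a b c d : E) : ⟪T a b, T c d⟫ = ⟪a, c⟫ * ⟪b, d⟫ := by
  rw [L2.inner_def, L2.inner_def, L2.inner_def, ← integral_prod_mul]
  refine integral_congr_ae ?_
  filter_upwards [coe_T a b, coe_T c d] with p h1 h2
  rw [h1, h2]
  simp only [tf, RCLike.inner_apply, conj_trivial]
  ring

theorem norm_T (a b : E) : ‖T a b‖ = ‖a‖ * ‖b‖ := by
  have h : ‖T a b‖ ^ 2 = (‖a‖ * ‖b‖) ^ 2 := by
    rw [← real_inner_self_eq_norm_sq, inner_T, real_inner_self_eq_norm_sq,
      real_inner_self_eq_norm_sq]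
    ring
  exact (pow_left_inj₀ (norm_nonneg _) (by positivity) two_ne_zero).1 h

theorem pi2_eq : Pi2 = {g | ∃ u v : E, ‖u‖ = 1 ∧ ‖v‖ = 1 ∧ g = T u v} := by
  ext g
  constructor
  · rintro ⟨hg, u, v, huv⟩
    have hgT : g = T u v := by
      apply Lp.ext
      exact huv.trans (coe_T u v).symm
    have hn : ‖u‖ * ‖v‖ = 1 := by rw [← norm_T, ← hgT, hg]
    have hu : 0 < ‖u‖ := by
      rcases (norm_nonneg u).eq_or_lt with h | h
      · rw [← h, zero_mul] at hn; exact absurd hn (by norm_num)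
      · exact h
    refine ⟨‖u‖⁻¹ • u, ‖u‖ • v, ?_, ?_, ?_⟩
    · rw [norm_smul, norm_inv, norm_norm, inv_mul_cancel₀ hu.ne']
    · rw [norm_smul, norm_norm, hn]
    · rw [hgT, ← sub_eq_zero, ← norm_eq_zero, ← sq_eq_zero_iff, norm_sub_sq_real, norm_T, norm_T,
        inner_T, real_inner_smul_right, real_inner_smul_right, norm_smul, norm_smul, norm_inv,
        norm_norm, inv_mul_cancel₀ hu.ne', real_inner_self_eq_norm_sq, real_inner_self_eq_norm_sq]
      field_simp
      have : (‖u‖ * ‖v‖) ^ 2 = 1 := by rw [hn]; norm_num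
      nlinarith
  · rintro ⟨u, v, hu, hv, rfl⟩
    refine ⟨by rw [norm_T, hu, hv, mul_one], u, v, coe_T u v⟩

theorem complete (h : H) (hh : ∀ g ∈ Pi2, ⟪h, g⟫ = 0) : h = 0 := by
  -- all elementary tensors
  have h1 : ∀ u v : E, ⟪h, T u v⟫ = 0 := by
    intro u v
    by_cases h0 : ‖T u v‖ = 0
    · rw [norm_eq_zero.1 h0, inner_zero_right]
    · have hn : ‖u‖ * ‖v‖ ≠ 0 := by rwa [← norm_T]
      have hu : ‖u‖ ≠ 0 := left_ne_zero_of_mul hn
      have hv : ‖v‖ ≠ 0 := right_ne_zero_of_mul hn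
      have h2 : T (‖u‖⁻¹ • u) (‖v‖⁻¹ • v) ∈ Pi2 := by
        rw [pi2_eq]
        refine ⟨_, _, ?_, ?_, rfl⟩
        · rw [norm_smul, norm_inv, norm_norm, inv_mul_cancel₀ hu]
        · rw [norm_smul, norm_inv, norm_norm, inv_mul_cancel₀ hv]
      have h3 := hh _ h2
      have h4 : T (‖u‖⁻¹ • u) (‖v‖⁻¹ • v) = (‖u‖⁻¹ * ‖v‖⁻¹) • T u v := by
        apply Lp.ext
        refine (coe_T _ _).trans ?_
        have e1 : ∀ᵐ p ∂(mu.prod mu), (‖u‖⁻¹ • u : E) p.1 = ‖u‖⁻¹ * u p.1 := by
          have := (Lp.coeFn_smul ‖u‖⁻¹ u)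
          exact Measure.quasiMeasurePreserving_fst.ae this
        have e2 : ∀ᵐ p ∂(mu.prod mu), (‖v‖⁻¹ • v : E) p.2 = ‖v‖⁻¹ * v p.2 := by
          have := (Lp.coeFn_smul ‖v‖⁻¹ v)
          exact Measure.quasiMeasurePreserving_snd.ae this
        filter_upwards [e1, e2, coe_T u v, Lp.coeFn_smul (‖u‖⁻¹ * ‖v‖⁻¹) (T u v)] with p h5 h6 h7 h8
        rw [h8]
        simp only [tf, Pi.smul_apply, smul_eq_mul]
        rw [h5, h6, h7]
        simp only [tf]
        ring
      rw [h4, real_inner_smul_right] at h3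
      rcases mul_eq_zero.1 h3 with h5 | h5
      · exact absurd h5 (mul_ne_zero (inv_ne_zero hu) (inv_ne_zero hv))
      · exact h5
  have hint : Integrable (h : ℝ × ℝ → ℝ) (mu.prod mu) :=
    (Lp.memLp h).integrable (by norm_num)
  -- rectangles
  have h2 : ∀ A B : Set ℝ, MeasurableSet A → MeasurableSet B →
      ∫ p in A ×ˢ B, h p ∂(mu.prod mu) = 0 := by
    intro A B hA hB
    have h3 := h1 (indicatorConstLp 2 hA (measure_ne_top mu A) (1 : ℝ))
      (indicatorConstLp 2 hB (measure_ne_top mu B) (1 : ℝ))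
    have h4 : T (indicatorConstLp 2 hA (measure_ne_top mu A) (1 : ℝ))
        (indicatorConstLp 2 hB (measure_ne_top mu B) (1 : ℝ)) =
        indicatorConstLp 2 (hA.prod hB) (measure_ne_top (mu.prod mu) _) (1 : ℝ) := by
      apply Lp.ext
      refine (coe_T _ _).trans ?_
      have e1 : ∀ᵐ p ∂(mu.prod mu), (indicatorConstLp 2 hA (measure_ne_top mu A) (1 : ℝ)) p.1 =
          A.indicator (fun _ => (1 : ℝ)) p.1 :=
        Measure.quasiMeasurePreserving_fst.ae indicatorConstLp_coeFn
      have e2 : ∀ᵐ p ∂(mu.prod mu), (indicatorConstLp 2 hB (measure_ne_top mu B) (1 : ℝ)) p.2 =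
          B.indicator (fun _ => (1 : ℝ)) p.2 :=
        Measure.quasiMeasurePreserving_snd.ae indicatorConstLp_coeFn
      have e3 := @indicatorConstLp_coeFn _ _ _ 2 (mu.prod mu) _ _ (hA.prod hB)
        (measure_ne_top (mu.prod mu) _) (1 : ℝ)
      filter_upwards [e1, e2, e3] with p h5 h6 h7
      rw [h7]
      simp only [tf]
      rw [h5, h6]
      by_cases ha : p.1 ∈ A <;> by_cases hb : p.2 ∈ B <;>
        simp [ha, hb]
    rw [h4, real_inner_comm, L2.inner_indicatorConstLp_one] at h3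
    exact h3
  have h3 : ∀ S : Set (ℝ × ℝ), MeasurableSet S → ∫ p in S, h p ∂(mu.prod mu) = 0 := by
    intro S hS
    induction S, hS using MeasurableSpace.induction_on_inter generateFrom_prod.symm
      isPiSystem_prod with
    | empty => simp
    | basic t ht =>
      obtain ⟨A, hA, B, hB, rfl⟩ := ht
      exact h2 A B hA hB
    | compl t htm ih =>
      rw [setIntegral_compl htm hint, ih, sub_zero]
      have := h2 Set.univ Set.univ MeasurableSet.univ MeasurableSet.univ
      rw [Set.univ_prod_univ, setIntegral_univ] at this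
      exact this
    | iUnion f hd hfm ih =>
      rw [integral_iUnion hfm hd hint.integrableOn]
      simp [ih]
  have h4 := hint.ae_eq_zero_of_forall_setIntegral_eq_zero (fun s hs _ => h3 s hs)
  apply Lp.ext
  exact h4.trans (Lp.coeFn_zero _ _ _).symm

/-- the intervals -/
def I (n : ℕ) : Set ℝ := Set.Ioc (1 / ((n : ℝ) + 2)) (1 / ((n : ℝ) + 1))

theorem mI (n : ℕ) : MeasurableSet (I n) := measurableSet_Ioc

theorem mu_I (n : ℕ) : 0 < mu.real (I n) := by
  have h1 : I n ⊆ Set.Icc 0 1 := by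
    intro x hx
    obtain ⟨h2, h3⟩ := hx
    refine ⟨?_, ?_⟩
    · have : (0 : ℝ) < 1 / ((n : ℝ) + 2) := by positivity
      linarith
    · refine h3.trans ?_
      rw [div_le_one (by positivity)]
      have : (0 : ℝ) ≤ n := Nat.cast_nonneg n
      linarith
  have h2 : mu (I n) = volume (I n) := by
    unfold mu
    rw [Measure.restrict_apply (mI n), Set.inter_eq_left.2 h1]
  unfold Measure.real
  rw [h2, I, Real.volume_Ioc, ENNReal.toReal_ofReal_eq_iff.2]
  · rw [sub_pos]
    apply one_div_lt_one_div_of_lt <;> [positivity; linarith]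
  · rw [sub_nonneg]
    apply one_div_le_one_div_of_le <;> [positivity; linarith]

theorem disj_I {m n : ℕ} (h : m < n) : I m ∩ I n = ∅ := by
  ext x
  simp only [I, Set.mem_inter_iff, Set.mem_Ioc, Set.mem_empty_iff_false, iff_false]
  rintro ⟨⟨h1, _⟩, _, h4⟩
  have h5 : 1 / ((n : ℝ) + 1) ≤ 1 / ((m : ℝ) + 2) := by
    apply one_div_le_one_div_of_le
    · positivity
    · have : (m : ℝ) + 1 ≤ n := by exact_mod_cast h
      linarith
  linarith

/-- the orthonormal sequence -/
noncomputable def os (n : ℕ) : E :=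
  (Real.sqrt (mu.real (I n)))⁻¹ • indicatorConstLp 2 (mI n) (measure_ne_top mu _) (1 : ℝ)

theorem os_orthonormal : Orthonormal ℝ os := by
  have hin : ∀ m n, ⟪os m, os n⟫ = (Real.sqrt (mu.real (I m)))⁻¹ *
      ((Real.sqrt (mu.real (I n)))⁻¹ * mu.real (I m ∩ I n)) := by
    intro m n
    unfold os
    rw [real_inner_smul_left, real_inner_smul_right,
      L2.real_inner_indicatorConstLp_one_indicatorConstLp_one]
  constructor
  · intro n
    have h1 : ‖os n‖ ^ 2 = 1 := by
      rw [← real_inner_self_eq_norm_sq, hin, Set.inter_self]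
      have h2 := mu_I n
      have h3 : Real.sqrt (mu.real (I n)) * Real.sqrt (mu.real (I n)) = mu.real (I n) :=
        Real.mul_self_sqrt h2.le
      have h4 : 0 < Real.sqrt (mu.real (I n)) := Real.sqrt_pos.2 h2
      field_simp
      nlinarith
    have h2 : ‖os n‖ ^ 2 = 1 ^ 2 := by rw [h1, one_pow]
    exact (pow_left_inj₀ (norm_nonneg _) (by norm_num) two_ne_zero).1 h2
  · intro m n hmn
    show ⟪os m, os n⟫ = 0
    rw [hin]
    rcases lt_or_gt_of_ne hmn with h | h
    · rw [disj_I h]; simp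
    · rw [Set.inter_comm, disj_I h]; simp

theorem l2 : S_L2 :=
  ⟨⟨T, inner_T, pi2_eq⟩, complete, os, os_orthonormal⟩

end Pool.Agent.W806.WG
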